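import Mathlib
import Pool.Agent.Helper18.EW.Goals
import Pool.Agent.Helper63.Hw.H1

/-!
# Project EW, packet G5: deaths and skips of the special points
-/

set_option autoImplicit false

namespace Pool.Agent.Helper39.EW

open Finset
open Pool.Agent.Helper43.Hw (T T_mono na va lz Play aa ac sc oo sk U Dd Sd Pn nx bb np GoalH1)
open Pool.Agent.Helper18.EW

section one
variable {μ R K τ s E : ℕ} {e P : ℕ → ℕ}

theorem gs_le (i : ℕ) : gs s e P i ≤ s := by
  unfold gs
  split_ifs <;> omega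

theorem gk_ge {y : ℕ} (i : ℕ) (h : s ≤ y) : gk s e P i y = 1 := by
  unfold gk
  rw [if_neg]
  have := gs_le (s := s) (e := e) (P := P) i
  omega

theorem gx_pos {i t : ℕ} (h : 0 < gx μ τ s e P i t) : t < s := by
  unfold gx at h
  split_ifs at h with h1
  · exact h1.2.trans_le (gs_le i)
  · omega

/-- What G1 and H1 say about one special point. -/
theorem pt_fact (hH1 : GoalH1) (hG1 : GoalG1) (h1 : 1 ≤ μ) (hG : Grp μ R K τ s E e P) {i : ℕ}
    (hi : i < K) {y : ℕ} (hsy : s ≤ y) (hyR : y < R) :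
    ac R (gk s e P i) (gx μ τ s e P i) 0 ≤ R - 1 - μ ∧
    (0 < va μ R (gk s e P i) (gx μ τ s e P i) 0 y ↔
      R - 1 - μ < ac R (gk s e P i) (gx μ τ s e P i) 0 + (R - 1 - y)) := by
  obtain ⟨hp, ⟨-, h2, -⟩, -⟩ := hG1 μ R K τ s E e P h1 hG i hi
  have hR : μ + 2 ≤ R := by have := hG.t1; have := hG.tJ; omega
  obtain ⟨-, -, -, -, -, h6, -⟩ := hH1 μ R 1 _ _ h1 hR hp
  refine ⟨h2, ?_⟩
  have h3 := (h6 y hyR 0 (by rw [gk_ge i hsy]; omega)).2.2.2
  rw [h3]
  omega

theorem oo_eq (hH1 : GoalH1) (hG1 : GoalG1) (h1 : 1 ≤ μ) (hG : Grp μ R K τ s E e P) {i : ℕ}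
    (hi : i < K) {y : ℕ} (hsy : s ≤ y) (hyR : y < R) :
    oo μ R (gk s e P i) (gx μ τ s e P i) y =
      if R - 1 - μ < ac R (gk s e P i) (gx μ τ s e P i) 0 + (R - 1 - y) then 1 else 0 := by
  have h := (pt_fact hH1 hG1 h1 hG hi hsy hyR).2
  unfold oo
  rw [gk_ge i hsy, range_one, filter_singleton]
  by_cases h2 : 0 < va μ R (gk s e P i) (gx μ τ s e P i) 0 y
  · rw [if_pos h2, if_pos (h.mp h2), card_singleton]
  · rw [if_neg h2, if_neg fun h3 => h2 (h.mpr h3), card_empty]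

theorem Dd_le (hH1 : GoalH1) (hG1 : GoalG1) (h1 : 1 ≤ μ) (hG : Grp μ R K τ s E e P) {i : ℕ}
    (hi : i < K) {y : ℕ} (hsy : s ≤ y) (hyR : y < R) :
    Dd μ R (gk s e P i) (gx μ τ s e P i) y ≤ T (R - 1 - y) *
      if R - 1 - μ < ac R (gk s e P i) (gx μ τ s e P i) 0 + (R - 1 - y) then 1 else 0 := by
  obtain ⟨h0, h⟩ := pt_fact hH1 hG1 h1 hG hi hsy hyR
  unfold Dd
  rw [gk_ge i hsy, range_one, filter_singleton]
  by_cases h2 : 0 < va μ R (gk s e P i) (gx μ τ s e P i) 0 y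
  · rw [if_pos h2, if_pos (h.mp h2), sum_singleton, mul_one]
    apply T_mono
    have h3 := h.mp h2
    omega
  · rw [if_neg h2, sum_empty]
    exact Nat.zero_le _

theorem Sd_le {i y : ℕ} :
    Sd μ R (gk s e P i) (gx μ τ s e P i) y ≤ (R - 1 - y) *
      ((range s).filter (fun t => 0 < gx μ τ s e P i t ∧
        U μ R (gx μ τ s e P i) t ≤ R - 1 - y)).card := by
  unfold Sd
  calc ∑ t ∈ (range y).filter (fun t => gk s e P i t < gk s e P i y ∧ 0 < gx μ τ s e P i t ∧
        U μ R (gx μ τ s e P i) t ≤ R - 1 - y), U μ R (gx μ τ s e P i) t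
      ≤ ∑ t ∈ (range y).filter (fun t => gk s e P i t < gk s e P i y ∧ 0 < gx μ τ s e P i t ∧
        U μ R (gx μ τ s e P i) t ≤ R - 1 - y), (R - 1 - y) := by
        refine sum_le_sum fun t ht => ?_
        exact (mem_filter.mp ht).2.2.2
    _ = ((range y).filter (fun t => gk s e P i t < gk s e P i y ∧ 0 < gx μ τ s e P i t ∧
        U μ R (gx μ τ s e P i) t ≤ R - 1 - y)).card * (R - 1 - y) := by
        rw [sum_const, smul_eq_mul]
    _ ≤ _ := by
        rw [mul_comm]
        refine Nat.mul_le_mul_left _ (card_le_card fun t ht => ?_)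
        have h := (mem_filter.mp ht).2
        exact mem_filter.mpr ⟨mem_range.mpr (gx_pos h.2.1), h.2.1, h.2.2⟩

theorem sk_le {i y : ℕ} (hyR : y < R) :
    ∑ j ∈ Ico y (R - 1), sk μ (gk s e P i) (gx μ τ s e P i) j ≤
      ((range s).filter (fun t => 0 < gx μ τ s e P i t ∧
        U μ R (gx μ τ s e P i) t ≤ R - 1 - y)).card := by
  have h1 : ∀ j ∈ Ico y (R - 1), sk μ (gk s e P i) (gx μ τ s e P i) j ≤
      (((range s).filter (fun t => 0 < gx μ τ s e P i t ∧
        U μ R (gx μ τ s e P i) t ≤ R - 1 - y)).filter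
          (fun t => μ + t - gx μ τ s e P i t = j)).card := by
    intro j hj
    rw [mem_Ico] at hj
    refine card_le_card fun t ht => ?_
    have h := (mem_filter.mp ht).2
    rw [mem_filter, mem_filter, mem_range]
    refine ⟨⟨gx_pos h.2.1, h.2.1, ?_⟩, ?_⟩
    · unfold U
      have := h.2.2
      omega
    · have := h.2.2
      omega
  refine (sum_le_sum h1).trans ?_
  rw [sum_card_fiberwise_eq_card_filter]
  exact card_filter_le _ _

end one

/-- **G5.** -/
theorem goalG5 (hG1 : GoalG1) : GoalG5 := by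
  have hH1 : GoalH1 := Pool.Agent.Helper43.Hw.PkH1.goalH1
  intro μ R K τ s E e P h1 hG
  refine ⟨?_, ?_, ?_, ?_, ?_⟩
  · intro y hsy hyR
    unfold gO gN
    rw [card_filter]
    exact sum_congr rfl fun i hi => oo_eq hH1 hG1 h1 hG (mem_range.mp hi) hsy hyR
  · intro y hsy hyR
    unfold gD gN
    rw [card_filter, mul_sum]
    exact sum_le_sum fun i hi => Dd_le hH1 hG1 h1 hG (mem_range.mp hi) hsy hyR
  · intro X
    unfold gN
    exact (card_filter_le _ _).trans (by rw [card_range])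
  · intro y _ _
    unfold gS gQ
    rw [mul_sum]
    exact sum_le_sum fun i _ => Sd_le
  · intro y _ hyR
    unfold gK gQ
    rw [sum_comm]
    exact sum_le_sum fun i _ => sk_le hyR

end Pool.Agent.Helper39.EW
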