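import Pool.Agent.Helper18.EW.Goals4
import Pool.Agent.Helper75.SG.S2
import Pool.Agent.Helper89.SG.S1

/-!
# Project EW (MP_d3128a_ag), packet Inv: the map `(x, y) ↦ (1/x, y/x)`
-/

set_option autoImplicit false

namespace Pool.Agent.Helper39.EW

open Finset Pool.Agent.Lead.Sh Pool.Agent.Helper18.SG Pool.Agent.Helper18.EW
open Pool.Agent.Helper75.SG (Van van_zero van_mul van_one van_pow van_mono expand)

/-- the identity for one monomial -/
lemma inv_mono (N : ℕ) (d : ℕ × ℕ) (hd : d.1 + d.2 ≤ N) (x0 y0 u0 v0 c : ℂ) (hu : u0 * x0 = 1)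
    (hv : v0 * x0 = y0) :
    (MvPolynomial.C c * ((MvPolynomial.X 0 + MvPolynomial.C x0) ^ d.1 *
      (MvPolynomial.X 1 + MvPolynomial.C y0) ^ d.2) : MvPolynomial (Fin 2) ℂ) =
    ∑ i ∈ range (N + 1), ∑ j ∈ range (N + 1),
      MvPolynomial.C (c * E (i, j) (N - d.1 - d.2, d.2) u0 v0) *
        ((MvPolynomial.X 0 + MvPolynomial.C x0) ^ (N - i - j) *
          ((-(MvPolynomial.C u0 * MvPolynomial.X 0)) ^ i *
            (MvPolynomial.X 1 - MvPolynomial.C v0 * MvPolynomial.X 0) ^ j)) := by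
  set x : MvPolynomial (Fin 2) ℂ := MvPolynomial.X 0 + MvPolynomial.C x0 with hx
  set p : MvPolynomial (Fin 2) ℂ := -(MvPolynomial.C u0 * MvPolynomial.X 0) with hp
  set q : MvPolynomial (Fin 2) ℂ := MvPolynomial.X 1 - MvPolynomial.C v0 * MvPolynomial.X 0 with hq
  have h1 : (1 : MvPolynomial (Fin 2) ℂ) = MvPolynomial.C u0 * x + p := by
    have h0 : (MvPolynomial.C u0 * MvPolynomial.C x0 : MvPolynomial (Fin 2) ℂ) = 1 := by
      rw [← map_mul, hu, map_one]
    rw [hx, hp, mul_add, h0]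
    ring
  have h2 : (MvPolynomial.X 1 + MvPolynomial.C y0 : MvPolynomial (Fin 2) ℂ) =
      MvPolynomial.C v0 * x + q := by
    have h0 : (MvPolynomial.C v0 * MvPolynomial.C x0 : MvPolynomial (Fin 2) ℂ) =
        MvPolynomial.C y0 := by
      rw [← map_mul, hv]
    rw [hx, hq, mul_add, h0]
    ring
  have h3 : (MvPolynomial.C c * (x ^ d.1 * (MvPolynomial.X 1 + MvPolynomial.C y0) ^ d.2) :
      MvPolynomial (Fin 2) ℂ) = MvPolynomial.C c * (x ^ d.1 *
        ((MvPolynomial.C u0 * x + p) ^ (N - d.1 - d.2) * (MvPolynomial.C v0 * x + q) ^ d.2)) := by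
    rw [← h1, ← h2, one_pow, one_mul]
  rw [h3, expand (MvPolynomial.C u0 * x) p (N - d.1 - d.2) N (by omega),
    expand (MvPolynomial.C v0 * x) q d.2 N (by omega), Finset.sum_mul_sum, Finset.mul_sum,
    Finset.mul_sum]
  refine Finset.sum_congr rfl fun i _ => ?_
  rw [Finset.mul_sum, Finset.mul_sum]
  refine Finset.sum_congr rfl fun j _ => ?_
  rcases lt_or_ge (N - d.1 - d.2) i with hi | hi
  · simp [E, Nat.choose_eq_zero_of_lt hi]
  rcases lt_or_ge d.2 j with hj | hj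
  · simp [E, Nat.choose_eq_zero_of_lt hj]
  have h4 : N - i - j = d.1 + (N - d.1 - d.2 - i) + (d.2 - j) := by omega
  rw [h4, pow_add, pow_add]
  simp only [E, map_mul, map_pow, map_natCast]
  ring_nf

/-- the transfer of the conditions -/
lemma inv_cond (N : ℕ) (D : Finset (ℕ × ℕ)) (hD : ∀ d ∈ D, d.1 + d.2 ≤ N) (μ : ℕ)
    (x0 y0 u0 v0 : ℂ) (hu : u0 * x0 = 1) (hv : v0 * x0 = y0) (c : ℕ × ℕ → ℂ)
    (hc : ∀ o : ℕ × ℕ, o.1 + o.2 < μ → ∑ d ∈ D, c d * E o (N - d.1 - d.2, d.2) u0 v0 = 0)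
    (o : ℕ × ℕ) (ho : o.1 + o.2 < μ) : ∑ d ∈ D, c d * E o d x0 y0 = 0 := by
  have h1 : ∑ d ∈ D, c d * E o d x0 y0 = MvPolynomial.coeff (ex o)
      (∑ d ∈ D, MvPolynomial.C (c d) * ((MvPolynomial.X 0 + MvPolynomial.C x0) ^ d.1 *
      (MvPolynomial.X 1 + MvPolynomial.C y0) ^ d.2) : MvPolynomial (Fin 2) ℂ) := by
    rw [MvPolynomial.coeff_sum]
    refine Finset.sum_congr rfl fun d _ => ?_
    rw [MvPolynomial.coeff_C_mul, Pool.Agent.Helper89.SG.coeff_prod]
  have key : (∑ d ∈ D, MvPolynomial.C (c d) * ((MvPolynomial.X 0 + MvPolynomial.C x0) ^ d.1 *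
      (MvPolynomial.X 1 + MvPolynomial.C y0) ^ d.2) : MvPolynomial (Fin 2) ℂ) =
      ∑ i ∈ range (N + 1), ∑ j ∈ range (N + 1),
      MvPolynomial.C (∑ d ∈ D, c d * E (i, j) (N - d.1 - d.2, d.2) u0 v0) *
        ((MvPolynomial.X 0 + MvPolynomial.C x0) ^ (N - i - j) *
          ((-(MvPolynomial.C u0 * MvPolynomial.X 0)) ^ i *
            (MvPolynomial.X 1 - MvPolynomial.C v0 * MvPolynomial.X 0) ^ j)) := by
    rw [Finset.sum_congr rfl fun d hd => inv_mono N d (hD d hd) x0 y0 u0 v0 (c d) hu hv,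
      Finset.sum_comm]
    refine Finset.sum_congr rfl fun i _ => ?_
    rw [Finset.sum_comm]
    refine Finset.sum_congr rfl fun j _ => ?_
    rw [map_sum, Finset.sum_mul]
  rw [h1, key, MvPolynomial.coeff_sum]
  refine Finset.sum_eq_zero fun i _ => ?_
  rw [MvPolynomial.coeff_sum]
  refine Finset.sum_eq_zero fun j _ => ?_
  rw [MvPolynomial.coeff_C_mul]
  rcases lt_or_ge (i + j) μ with h | h
  · rw [hc (i, j) h, zero_mul]
  · have hp1 : Van 1 (-(MvPolynomial.C u0 * MvPolynomial.X 0) : MvPolynomial (Fin 2) ℂ) := by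
      apply van_one
      simp
    have hq1 : Van 1 (MvPolynomial.X 1 - MvPolynomial.C v0 * MvPolynomial.X 0 :
        MvPolynomial (Fin 2) ℂ) := by
      apply van_one
      simp
    have h2 := van_mul (van_zero ((MvPolynomial.X 0 + MvPolynomial.C x0) ^ (N - i - j)))
      (van_mul (van_pow hp1 i) (van_pow hq1 j))
    rw [zero_add] at h2
    rw [van_mono h h2 (ex o) ?_, mul_zero]
    have : (ex o).degree = o.1 + o.2 := by
      rw [ex, map_add, Finsupp.degree_single, Finsupp.degree_single]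
    omega

theorem goalInv : GoalInv := by
  intro hCP N D m s hN hI
  obtain ⟨P, hP, hne⟩ := hCP.2 D (rows m s) hI
  refine ⟨fun k => ((P k).1⁻¹, (P k).2 * (P k).1⁻¹), ?_⟩
  intro c hc
  have hinj : Set.InjOn (fun x : ℕ × ℕ => (N - x.1 - x.2, x.2)) (D : Set (ℕ × ℕ)) := by
    intro a ha b hb hab
    have h1 := congrArg Prod.fst hab
    have h2 := congrArg Prod.snd hab
    simp only at h1 h2
    have h3 := hN a ha
    have h4 := hN b hb
    exact Prod.ext (by omega) h2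
  have h1 : ∀ d ∈ D, c (N - d.1 - d.2, d.2) = 0 := by
    apply hP (fun d => c (N - d.1 - d.2, d.2))
    intro r hr
    have hr' := (mem_rows m s r).1 hr
    refine inv_cond N D hN (m r.1) (P r.1).1 (P r.1).2 (P r.1).1⁻¹ ((P r.1).2 * (P r.1).1⁻¹)
      (inv_mul_cancel₀ (hne r.1)) ?_ _ ?_ r.2 hr'.2
    · rw [mul_assoc, inv_mul_cancel₀ (hne r.1), mul_one]
    · intro o ho
      have h2 := hc (r.1, o) ((mem_rows m s _).2 ⟨hr'.1, ho⟩)
      rw [Finset.sum_image hinj] at h2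
      exact h2
  intro d hd
  obtain ⟨d', hd', rfl⟩ := Finset.mem_image.1 hd
  exact h1 d' hd'

end Pool.Agent.Helper39.EW
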